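import Mathlib
import Pool.Agent.H59.KRes.Final2
import Pool.Agent.H9.KB.TwoDet
import Pool.Agent.H88.RS.Det2

/-!
# `K_{m,n}` is determined by its resistance spectrum, except possibly on finitely many diagonals

The definitions are in `Pool.Agent.H59.KRes.Res`, `.Spec` and `.KVals`:
`lapPinv G = (L + J/|V|)⁻¹ - J/|V|`, which for a connected graph is the Moore-Penrose pseudoinverse
of the Laplacian `L` (all four Penrose equations are proved in `lapPinv_penrose`),
`resistance G u v = (e_u - e_v)ᵀ (lapPinv G) (e_u - e_v)`,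
`resistanceSpectrum G` is the multiset of `resistance G u v` over all unordered pairs `{u,v}` of
distinct vertices, and `Kmn m n = completeBipartiteGraph (Fin m) (Fin n)`.
-/

namespace Pool.Agent.Results.MP_23a9ba_co.FiniteStrip

open Pool.Agent.H59.KRes

/-- Let `n ≥ 2` and `m ≥ n + 2`. If `m ≥ n + 200`, or `m = n + 2` and `n ≥ 3`, or
`2 n < (m - n) (m - n - 1)`, then `K_{m,n}` is determined by its resistance spectrum: every
connected graph `H` with the same resistance spectrum is isomorphic to `K_{m,n}`. -/
theorem result (m n : ℕ) (hn : 2 ≤ n) (hm : n + 2 ≤ m)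
    (h : n + 200 ≤ m ∨ (m = n + 2 ∧ 3 ≤ n) ∨ 2 * n < (m - n) * (m - n - 1))
    (W : Type) [Fintype W] [DecidableEq W] (H : SimpleGraph W) [DecidableRel H.Adj]
    (hH : H.Connected)
    (hRS : resistanceSpectrum H = resistanceSpectrum (Kmn m n)) :
    Nonempty (H ≃g Kmn m n) := by
  rcases h with h | ⟨h, h3⟩ | h
  · exact main_large hn h H hH hRS
  · exact Pool.Agent.H9.KB.iso_of_two h3 h W H hH hRS
  · exact Pool.Agent.H9.KB.iso_of_determined (by omega) (by omega)
      (Pool.Agent.H88.RS.determined_of_large' hn hm h) W H hH hRS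

end Pool.Agent.Results.MP_23a9ba_co.FiniteStrip
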